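import Mathlib

/-!
# Schur numbers and modular Schur numbers
-/

set_option autoImplicit false

namespace Pool.Agent.N703.SCH

/-- Ramsey's theorem for triangles, with a set of allowed colours -/
theorem ramsey (k : ℕ) : ∀ m : ℕ, ∃ N : ℕ, ∀ (K : Finset (Fin k)), K.card ≤ m →
    ∀ (A : Finset ℕ), N ≤ A.card → ∀ f : ℕ → ℕ → Fin k,
    (∀ a ∈ A, ∀ b ∈ A, a < b → f a b ∈ K) →
    ∃ a ∈ A, ∃ b ∈ A, ∃ c ∈ A, a < b ∧ b < c ∧ f a b = f b c ∧ f b c = f a c := by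
  intro m
  induction m with
  | zero =>
    refine ⟨2, fun K hK A hA f hf => ?_⟩
    obtain ⟨a, ha, b, hb, hab⟩ := Finset.one_lt_card.1 hA
    have hK0 : K = ∅ := Finset.card_eq_zero.1 (by omega)
    rcases lt_or_gt_of_ne hab with h | h
    · have := hf a ha b hb h
      rw [hK0] at this
      simp at this
    · have := hf b hb a ha h
      rw [hK0] at this
      simp at this
  | succ m ih =>
    obtain ⟨N, hN⟩ := ih
    refine ⟨(m + 1) * N + 2, fun K hK A hA f hf => ?_⟩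
    have hne : A.Nonempty := Finset.card_pos.1 (by omega)
    set a0 := A.min' hne with ha0
    have ha0A : a0 ∈ A := A.min'_mem hne
    have hmin : ∀ b ∈ A.erase a0, a0 < b := by
      intro b hb
      rw [Finset.mem_erase] at hb
      exact lt_of_le_of_ne (A.min'_le b hb.2) (Ne.symm hb.1)
    have hmaps : ∀ b ∈ A.erase a0, f a0 b ∈ K := fun b hb =>
      hf a0 ha0A b (Finset.mem_of_mem_erase hb) (hmin b hb)
    have hcard : K.card * N < (A.erase a0).card := by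
      rw [Finset.card_erase_of_mem ha0A]
      have : K.card * N ≤ (m + 1) * N := Nat.mul_le_mul_right _ hK
      omega
    obtain ⟨κ, hκ, hκN⟩ := Finset.exists_lt_card_fiber_of_mul_lt_card_of_maps_to hmaps hcard
    set B := (A.erase a0).filter fun b => f a0 b = κ with hB
    have hBA : ∀ b ∈ B, b ∈ A ∧ a0 < b ∧ f a0 b = κ := by
      intro b hb
      rw [hB, Finset.mem_filter] at hb
      exact ⟨Finset.mem_of_mem_erase hb.1, hmin b hb.1, hb.2⟩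
    by_cases hex : ∃ b ∈ B, ∃ c ∈ B, b < c ∧ f b c = κ
    · obtain ⟨b, hb, c, hc, hbc, hfc⟩ := hex
      refine ⟨a0, ha0A, b, (hBA b hb).1, c, (hBA c hc).1, (hBA b hb).2.1, hbc, ?_, ?_⟩
      · rw [(hBA b hb).2.2, hfc]
      · rw [hfc, (hBA c hc).2.2]
    · push Not at hex
      obtain ⟨a, ha, b, hb, c, hc, h⟩ := hN (K.erase κ) (by
        rw [Finset.card_erase_of_mem hκ]
        omega) B hκN.le f (by
        intro b hb c hc hbc
        rw [Finset.mem_erase]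
        exact ⟨hex b hb c hc hbc, hf b (hBA b hb).1 c (hBA c hc).1 hbc⟩)
      exact ⟨a, (hBA a ha).1, b, (hBA b hb).1, c, (hBA c hc).1, h⟩

/-- the Schur number -/
noncomputable def s (n : ℕ) : ℕ := sInf {k : ℕ | ∀ c : ℕ → Fin n, ∃ x y z : ℕ,
  1 ≤ x ∧ x ≤ k ∧ 1 ≤ y ∧ y ≤ k ∧ 1 ≤ z ∧ z ≤ k ∧ c x = c y ∧ c y = c z ∧ x + y = z}

/-- the modular Schur number -/
noncomputable def t (n : ℕ) : ℕ := sInf {k : ℕ | ∀ c : ℕ → Fin n, ∃ x y z : ℕ,
  1 ≤ x ∧ x ≤ k ∧ 1 ≤ y ∧ y ≤ k ∧ 1 ≤ z ∧ z ≤ k ∧ c x = c y ∧ c y = c z ∧ x + y ≡ z [MOD k + 1]}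

theorem schur (n : ℕ) : ∃ k : ℕ, ∀ c : ℕ → Fin n, ∃ x y z : ℕ,
    1 ≤ x ∧ x ≤ k ∧ 1 ≤ y ∧ y ≤ k ∧ 1 ≤ z ∧ z ≤ k ∧ c x = c y ∧ c y = c z ∧ x + y = z := by
  obtain ⟨N, hN⟩ := ramsey n n
  refine ⟨N, fun c => ?_⟩
  obtain ⟨a, ha, b, hb, d, hd, hab, hbd, h1, h2⟩ := hN Finset.univ (by simp) (Finset.range (N + 1))
    (by simp) (fun a b => c (b - a)) (fun _ _ _ _ _ => Finset.mem_univ _)
  rw [Finset.mem_range] at ha hb hd
  exact ⟨b - a, d - b, d - a, by omega, by omega, by omega, by omega, by omega, by omega, h1, h2,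
    by omega⟩

theorem main (n : ℕ) : 3 * s n ≤ t (n + 1) + 1 := by
  obtain ⟨k0, hk0⟩ := schur (n + 1)
  have hne : {k : ℕ | ∀ c : ℕ → Fin (n + 1), ∃ x y z : ℕ,
      1 ≤ x ∧ x ≤ k ∧ 1 ≤ y ∧ y ≤ k ∧ 1 ≤ z ∧ z ≤ k ∧ c x = c y ∧ c y = c z ∧
      x + y ≡ z [MOD k + 1]}.Nonempty := by
    refine ⟨k0, fun c => ?_⟩
    obtain ⟨x, y, z, h1, h2, h3, h4, h5, h6, h7, h8, h9⟩ := hk0 c
    exact ⟨x, y, z, h1, h2, h3, h4, h5, h6, h7, h8, by rw [h9]⟩
  have hmem := Nat.sInf_mem hne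
  by_contra hcon
  have hlt : t (n + 1) + 1 < 3 * s n := not_le.1 hcon
  have hs : 0 < s n := by omega
  have hsm : s n - 1 ∉ {k : ℕ | ∀ c : ℕ → Fin n, ∃ x y z : ℕ,
      1 ≤ x ∧ x ≤ k ∧ 1 ≤ y ∧ y ≤ k ∧ 1 ≤ z ∧ z ≤ k ∧ c x = c y ∧ c y = c z ∧ x + y = z} :=
    Nat.notMem_of_lt_sInf (show s n - 1 < s n by omega)
  change ¬ (∀ c : ℕ → Fin n, ∃ x y z : ℕ, 1 ≤ x ∧ x ≤ s n - 1 ∧ 1 ≤ y ∧ y ≤ s n - 1 ∧ 1 ≤ z ∧
    z ≤ s n - 1 ∧ c x = c y ∧ c y = c z ∧ x + y = z) at hsm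
  push Not at hsm
  obtain ⟨P, hP⟩ := hsm
  set m := t (n + 1) with hm
  obtain ⟨x, y, z, hx1, hx2, hy1, hy2, hz1, hz2, hxy, hyz, hmod⟩ :=
    (show ∀ c : ℕ → Fin (n + 1), ∃ x y z : ℕ,
      1 ≤ x ∧ x ≤ m ∧ 1 ≤ y ∧ y ≤ m ∧ 1 ≤ z ∧ z ≤ m ∧ c x = c y ∧ c y = c z ∧
      x + y ≡ z [MOD m + 1] from hmem)
      (fun x => if 3 * x ≤ m + 1 then (P x).castSucc else
        if 3 * (m + 1 - x) < m + 1 then (P (m + 1 - x)).castSucc else Fin.last n)
  have hcases : x + y = z ∨ x + y = z + (m + 1) := by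
    have h1 : (x + y) % (m + 1) = z := by
      have := hmod
      rw [Nat.ModEq, Nat.mod_eq_of_lt (show z < m + 1 by omega)] at this
      exact this
    rcases lt_or_ge (x + y) (m + 1) with h2 | h2
    · left
      rwa [Nat.mod_eq_of_lt h2] at h1
    · right
      rw [Nat.mod_eq_sub_mod h2, Nat.mod_eq_of_lt (by omega)] at h1
      omega
  have hPs : ∀ a b c : ℕ, 1 ≤ a → 1 ≤ b → 3 * c ≤ m + 1 → a + b = c → P a = P b → P b = P c →
      False := by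
    intro a b c ha hb hc habc h1 h2
    exact hP a b c ha (by omega) hb (by omega) (by omega) (by omega) h1 h2 habc
  have hcl : ∀ a : Fin n, a.castSucc ≠ Fin.last n := fun a => (Fin.castSucc_lt_last a).ne
  have htri : ∀ v, 1 ≤ v → v ≤ m →
      (∃ a, v = a ∧ 1 ≤ a ∧ 3 * a ≤ m + 1 ∧
        (if 3 * v ≤ m + 1 then (P v).castSucc else
        if 3 * (m + 1 - v) < m + 1 then (P (m + 1 - v)).castSucc else Fin.last n) =
        (P a).castSucc) ∨
      (∃ a, v + a = m + 1 ∧ 1 ≤ a ∧ 3 * a < m + 1 ∧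
        (if 3 * v ≤ m + 1 then (P v).castSucc else
        if 3 * (m + 1 - v) < m + 1 then (P (m + 1 - v)).castSucc else Fin.last n) =
        (P a).castSucc) ∨
      (m + 1 < 3 * v ∧ 3 * v ≤ 2 * (m + 1) ∧
        (if 3 * v ≤ m + 1 then (P v).castSucc else
        if 3 * (m + 1 - v) < m + 1 then (P (m + 1 - v)).castSucc else Fin.last n) =
        Fin.last n) := by
    intro v hv1 hv2
    by_cases h1 : 3 * v ≤ m + 1
    · left
      exact ⟨v, rfl, hv1, h1, if_pos h1⟩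
    · right
      by_cases h2 : 3 * (m + 1 - v) < m + 1
      · left
        exact ⟨m + 1 - v, by omega, by omega, h2, by rw [if_neg h1, if_pos h2]⟩
      · right
        exact ⟨by omega, by omega, by rw [if_neg h1, if_neg h2]⟩
  rcases htri x hx1 hx2 with ⟨a, ha1, ha2, ha3, ha4⟩ | ⟨a, ha1, ha2, ha3, ha4⟩ | ⟨ha1, ha2, ha4⟩ <;>
  rcases htri y hy1 hy2 with ⟨b, hb1, hb2, hb3, hb4⟩ | ⟨b, hb1, hb2, hb3, hb4⟩ | ⟨hb1, hb2, hb4⟩ <;>
  rcases htri z hz1 hz2 with ⟨c, hc1, hc2, hc3, hc4⟩ | ⟨c, hc1, hc2, hc3, hc4⟩ | ⟨hc1, hc2, hc4⟩ <;>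
  rw [ha4, hb4] at hxy <;> rw [hb4, hc4] at hyz <;>
  first
    | exact absurd hxy (hcl _)
    | exact absurd hxy.symm (hcl _)
    | exact absurd hyz (hcl _)
    | exact absurd hyz.symm (hcl _)
    | (exfalso; omega)
    | exact hPs a b c ha2 hb2 (by omega) (by omega) (Fin.castSucc_injective _ hxy)
        (Fin.castSucc_injective _ hyz)
    | exact hPs c b a hc2 hb2 (by omega) (by omega) (Fin.castSucc_injective _ hyz).symm
        (Fin.castSucc_injective _ hxy).symm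
    | exact hPs c a b hc2 ha2 (by omega) (by omega)
        ((Fin.castSucc_injective _ hxy).trans (Fin.castSucc_injective _ hyz)).symm
        (Fin.castSucc_injective _ hxy)
    | exact hPs a c b ha2 hc2 (by omega) (by omega)
        ((Fin.castSucc_injective _ hxy).trans (Fin.castSucc_injective _ hyz))
        (Fin.castSucc_injective _ hyz).symm
    | exact hPs b c a hb2 hc2 (by omega) (by omega) (Fin.castSucc_injective _ hyz)
        ((Fin.castSucc_injective _ hxy).trans (Fin.castSucc_injective _ hyz)).symm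

end Pool.Agent.N703.SCH
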